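import Pool.Agent.Helper97.TI.Defs

/-!
MP_17e24e_ag, module GMB: block triangular additivity of `GM`.
-/

set_option autoImplicit false
open MvPolynomial

namespace TI

section MAT

variable {R k : Type} [CommRing R] [Field k]

theorem GMB_prod {ι ι' : Type} [Fintype ι] [DecidableEq ι] [Fintype ι'] [DecidableEq ι']
    (l : List (Matrix ι ι k × Matrix ι ι' k × Matrix ι' ι' k)) :
    ∃ C : Matrix ι ι' k, (l.map fun x => Matrix.fromBlocks x.1 x.2.1 0 x.2.2).prod =
      Matrix.fromBlocks (l.map fun x => x.1).prod C 0 (l.map fun x => x.2.2).prod := by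
  induction l with
  | nil => exact ⟨0, by simp⟩
  | cons x l ih =>
    obtain ⟨C, hC⟩ := ih
    refine ⟨x.1 * C + x.2.1 * (l.map fun x => x.2.2).prod, ?_⟩
    rw [List.map_cons, List.prod_cons, hC, Matrix.fromBlocks_multiply]
    simp

theorem GMB_trace {ι ι' : Type} [Fintype ι] [Fintype ι']
    (A : Matrix ι ι k) (B : Matrix ι ι' k) (C : Matrix ι' ι k) (D : Matrix ι' ι' k) :
    (Matrix.fromBlocks A B C D).trace = A.trace + D.trace := by
  simp [Matrix.trace, Fintype.sum_sum_type]

/-- G4: block triangular additivity -/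
theorem GM_blocks {n : ℕ} {ι ι' : Type} [Fintype ι] [DecidableEq ι] [Fintype ι'] [DecidableEq ι']
    (der : Fin n → Derivation ℤ k k) (T : R →+* Matrix (ι ⊕ ι') (ι ⊕ ι') k)
    (T₁ : R →+* Matrix ι ι k) (T₂ : R →+* Matrix ι' ι' k) (B : R → Matrix ι ι' k)
    (hT : ∀ r, T r = Matrix.fromBlocks (T₁ r) (B r) 0 (T₂ r)) (a : R) (b : Fin n → R) :
    GM der T a b = GM der T₁ a b + GM der T₂ a b := by
  unfold GM
  rw [← Finset.sum_add_distrib]
  apply Finset.sum_congr rfl
  intro σ _
  rw [← smul_add]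
  congr 1
  have h1 : (List.ofFn fun j => (T (b (σ j))).map (der j)) =
      (List.ofFn fun j => ((T₁ (b (σ j))).map (der j), (B (b (σ j))).map (der j),
        (T₂ (b (σ j))).map (der j))).map fun x => Matrix.fromBlocks x.1 x.2.1 0 x.2.2 := by
    rw [List.map_ofFn]
    congr 1
    funext j
    simp only [Function.comp]
    rw [hT, Matrix.fromBlocks_map]
    congr 1
    ext i j
    simp
  obtain ⟨C, hC⟩ := GMB_prod (List.ofFn fun j => ((T₁ (b (σ j))).map (der j),
    (B (b (σ j))).map (der j), (T₂ (b (σ j))).map (der j)))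
  rw [h1, hC, hT, Matrix.fromBlocks_multiply, GMB_trace, List.map_ofFn,
    List.map_ofFn]
  simp only [Matrix.mul_zero, add_zero, Matrix.zero_mul, zero_add]
  rfl

end MAT

end TI
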