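import Pool.Agent.Helper14.TI.GMC

/-!
MP_17e24e_ag, module GMR: `GM` of the regular representation.
-/

set_option autoImplicit false
open MvPolynomial

namespace TI

section MAT

variable {R k : Type} [CommRing R] [Field k]

/-- G3: regular representation -/
theorem GM_regular {n : ℕ} {K ι : Type} [Field K] [Algebra k K] [Fintype ι] [DecidableEq ι]
    (e : Module.Basis ι k K) (π : R →+* K)
    (der : Fin n → Derivation ℤ k k) (D : Fin n → Derivation ℤ K K)
    (hD : ∀ j x, D j (algebraMap k K x) = algebraMap k K (der j x))
    (T : R →+* Matrix ι ι k) (hT : ∀ r, T r = Algebra.leftMulMatrix e (π r))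
    (a : R) (b : Fin n → R) :
    GM der T a b = Algebra.trace k K (π a * Matrix.det (Matrix.of fun i j => D i (π (b j)))) := by
  rw [GMC_GM]
  rw [GG_congr (Matrix.traceAddMonoidHom ι k) (fun x y => Matrix.trace_mul_comm x y) T
    (fun j r => (T r).map (der j)) (fun j r => Algebra.leftMulMatrix e (D j (π r)))]
  · unfold GG
    have h1 : ∀ σ : Equiv.Perm (Fin n), ((Equiv.Perm.sign σ : ℤ)) •
        (Matrix.traceAddMonoidHom ι k) (T a *
          (List.ofFn fun j => Algebra.leftMulMatrix e (D j (π (b (σ j))))).prod) =
        Algebra.trace k K (((Equiv.Perm.sign σ : ℤ)) •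
          (π a * ∏ j, D j (π (b (σ j))))) := by
      intro σ
      rw [map_zsmul]
      congr 1
      have h2 : (List.ofFn fun j => Algebra.leftMulMatrix e (D j (π (b (σ j))))) =
          (List.ofFn fun j => D j (π (b (σ j)))).map (Algebra.leftMulMatrix e) := by
        rw [List.map_ofFn]
        rfl
      rw [h2, ← map_list_prod, hT, ← map_mul, List.prod_ofFn, Algebra.trace_eq_matrix_trace e]
      rfl
    rw [Finset.sum_congr rfl (fun σ _ => h1 σ), ← map_sum]
    congr 1
    rw [← Matrix.det_transpose, Matrix.det_apply, Finset.mul_sum]
    apply Finset.sum_congr rfl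
    intro σ _
    rw [mul_smul_comm, Units.smul_def]
    rfl
  · intro j
    exact GMC_bd (der j) T
  · intro j
    constructor
    · intro b b'
      change Algebra.leftMulMatrix e (D j (π (b + b'))) = _
      rw [map_add, map_add, map_add]
    · intro b b'
      change Algebra.leftMulMatrix e (D j (π (b * b'))) =
        Algebra.leftMulMatrix e (D j (π b)) * T b' + T b * Algebra.leftMulMatrix e (D j (π b'))
      rw [hT, hT, ← map_mul, ← map_mul, ← map_add, map_mul, Derivation.leibniz]
      congr 1
      simp only [smul_eq_mul]
      ring
  · intro j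
    let ε : Matrix ι ι k := Matrix.of fun l i => e.repr (D j (e i)) l
    refine ⟨-ε, fun r => ?_⟩
    change (T r).map (der j) - Algebra.leftMulMatrix e (D j (π r)) = -ε * T r - T r * (-ε)
    have key : Algebra.leftMulMatrix e (D j (π r)) + T r * ε = (T r).map (der j) + ε * T r := by
      ext l i
      rw [Matrix.add_apply, Matrix.add_apply, Matrix.map_apply, Algebra.leftMulMatrix_eq_repr_mul]
      -- apply the derivation to `π r * e i`
      have h1 : π r * e i = ∑ m, T r m i • e m := by
        rw [← e.sum_repr (π r * e i)]
        apply Finset.sum_congr rfl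
        intro m _
        rw [hT, Algebra.leftMulMatrix_eq_repr_mul]
      have h2 : D j (π r * e i) = ∑ m, (der j (T r m i) • e m + T r m i • D j (e m)) := by
        rw [h1, map_sum]
        apply Finset.sum_congr rfl
        intro m _
        rw [Algebra.smul_def, Derivation.leibniz, hD, smul_eq_mul, smul_eq_mul, Algebra.smul_def,
          Algebra.smul_def]
        ring
      rw [Derivation.leibniz, smul_eq_mul, smul_eq_mul] at h2
      have h3 := congrArg (fun x => e.repr x l) h2
      simp only [map_add, Finsupp.add_apply, map_sum, Finsupp.finsetSum_apply, map_smul,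
        Finsupp.smul_apply, smul_eq_mul] at h3
      rw [Finset.sum_add_distrib] at h3
      have h4 : e.repr (π r * D j (e i)) l = (T r * ε) l i := by
        rw [Matrix.mul_apply]
        have h5 : π r * D j (e i) = ∑ m, e.repr (D j (e i)) m • (π r * e m) := by
          conv_lhs => rw [← e.sum_repr (D j (e i))]
          rw [Finset.mul_sum]
          apply Finset.sum_congr rfl
          intro m _
          rw [mul_smul_comm]
        rw [h5, map_sum, Finsupp.finsetSum_apply]
        apply Finset.sum_congr rfl
        intro m _
        rw [map_smul, Finsupp.smul_apply, smul_eq_mul, hT, Algebra.leftMulMatrix_eq_repr_mul]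
        simp only [ε, Matrix.of_apply]
        ring
      have h6 : ∑ m, der j (T r m i) * e.repr (e m) l = der j (T r l i) := by
        rw [Finset.sum_eq_single l]
        · simp
        · intro m _ hm
          rw [e.repr_self, Finsupp.single_eq_of_ne (Ne.symm hm), mul_zero]
        · simp
      have h7 : ∑ m, T r m i * e.repr (D j (e m)) l = (ε * T r) l i := by
        rw [Matrix.mul_apply]
        apply Finset.sum_congr rfl
        intro m _
        simp only [ε, Matrix.of_apply]
        ring
      rw [h4, h6, h7] at h3
      rw [mul_comm (D j (π r)) (e i), add_comm, h3]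
    have h8 : (T r).map (der j) - Algebra.leftMulMatrix e (D j (π r)) = T r * ε - ε * T r := by
      rw [sub_eq_sub_iff_add_eq_add, ← key]
      abel
    rw [h8]
    simp only [Matrix.mul_neg, Matrix.neg_mul]
    abel

end MAT

end TI
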