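import Pool.Agent.Helper97.TI.Defs

/-!
MP_17e24e_ag, modules LC1 and LC2: the connection lemma.
-/

set_option autoImplicit false
open MvPolynomial

namespace TI

open Equiv

section LC

variable {E R k : Type} [Ring E] [CommRing R] [AddCommGroup k]

/-- `u s * u (s+1) * ... * u (s+r-1)` -/
def LC1_pr (u : ℕ → E) (s : ℕ) : ℕ → E
  | 0 => 1
  | r + 1 => LC1_pr u s r * u (s + r)

theorem LC1_pr_congr {u u' : ℕ → E} {s r : ℕ} (h : ∀ j, s ≤ j → j < s + r → u j = u' j) :
    LC1_pr u s r = LC1_pr u' s r := by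
  induction r with
  | zero => rfl
  | succ r ih =>
    simp only [LC1_pr]
    rw [ih (fun j h1 h2 => h j h1 (by omega)), h (s + r) (by omega) (by omega)]

theorem LC1_pr_add (u : ℕ → E) (s r r' : ℕ) :
    LC1_pr u s (r + r') = LC1_pr u s r * LC1_pr u (s + r) r' := by
  induction r' with
  | zero => simp [LC1_pr]
  | succ r' ih =>
    rw [← add_assoc]
    simp only [LC1_pr]
    rw [ih, mul_assoc, add_assoc]

theorem LC1_pr_split (u : ℕ → E) {s r i : ℕ} (hi : i < r) :
    LC1_pr u s r = LC1_pr u s i * u (s + i) * LC1_pr u (s + i + 1) (r - i - 1) := by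
  obtain ⟨q, rfl⟩ : ∃ q, r = (i + 1) + q := ⟨r - i - 1, by omega⟩
  rw [LC1_pr_add]
  have e : i + 1 + q - i - 1 = q := by omega
  rw [e, ← add_assoc]
  rfl

theorem LC1_comm (u : ℕ → E) (s r : ℕ) (t : E) :
    LC1_pr u s r * t - t * LC1_pr u s r = ∑ i ∈ Finset.range r,
      LC1_pr u s i * (u (s + i) * t - t * u (s + i)) * LC1_pr u (s + i + 1) (r - i - 1) := by
  induction r with
  | zero => simp [LC1_pr]
  | succ r ih =>
    rw [Finset.sum_range_succ]
    have e0 : r + 1 - r - 1 = 0 := by omega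
    rw [e0]
    have e1 : ∑ i ∈ Finset.range r,
        LC1_pr u s i * (u (s + i) * t - t * u (s + i)) * LC1_pr u (s + i + 1) (r + 1 - i - 1) =
        (∑ i ∈ Finset.range r,
        LC1_pr u s i * (u (s + i) * t - t * u (s + i)) * LC1_pr u (s + i + 1) (r - i - 1)) *
          u (s + r) := by
      rw [Finset.sum_mul]
      apply Finset.sum_congr rfl
      intro i hi
      rw [Finset.mem_range] at hi
      have e2 : r + 1 - i - 1 = (r - i - 1) + 1 := by omega
      rw [e2]
      simp only [LC1_pr]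
      have e3 : s + i + 1 + (r - i - 1) = s + r := by omega
      rw [e3]
      noncomm_ring
    rw [e1, ← ih]
    simp only [LC1_pr]
    noncomm_ring

theorem LC1_ofFn (n : ℕ) (w : Fin n → E) (u : ℕ → E) (h : ∀ j (hj : j < n), u j = w ⟨j, hj⟩) :
    (List.ofFn w).prod = LC1_pr u 0 n := by
  induction n with
  | zero => simp [LC1_pr]
  | succ n ih =>
    rw [List.ofFn_succ', List.prod_concat]
    simp only [LC1_pr]
    rw [ih (fun i => w i.castSucc) (fun j hj => h j (by omega)), zero_add, h n (Nat.lt_succ_self n)]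
    rfl

/-- the letters of the word attached to `σ` -/
def LC1_u {n : ℕ} (δ : Fin n → R → E) (b : Fin n → R) (σ : Equiv.Perm (Fin n)) (j : ℕ) : E :=
  if h : j < n then δ ⟨j, h⟩ (b (σ ⟨j, h⟩)) else 1

theorem LC1_GG {n : ℕ} (tr : E →+ k) (T : R →+* E) (δ : Fin n → R → E) (a : R) (b : Fin n → R) :
    GG tr T δ a b = ∑ σ : Equiv.Perm (Fin n), ((Equiv.Perm.sign σ : ℤ)) •
      tr (T a * LC1_pr (LC1_u δ b σ) 0 n) := by
  unfold GG
  apply Finset.sum_congr rfl
  intro σ _
  rw [LC1_ofFn n _ (LC1_u δ b σ)]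
  intro j hj
  unfold LC1_u
  rw [dif_pos hj]

theorem LC1_bd_symm {T : R →+* E} {δ : R → E} (hδ : IsBD T δ) (b b' : R) :
    δ b * T b' - T b' * δ b = δ b' * T b - T b * δ b' := by
  have h1 := hδ.2 b b'
  have h2 := hδ.2 b' b
  rw [mul_comm b' b, h1] at h2
  rw [sub_eq_sub_iff_add_eq_add, h2]

/-- cancellation in pairs -/
theorem LC1_pair {n : ℕ} (f : E →+ k) (T : R →+* E) (δ : R → E) (hδ : IsBD T δ)
    (b : Fin n → R) (j₀ m : Fin n) (hm : m ≠ j₀) (X Y : Equiv.Perm (Fin n) → E)
    (hX : ∀ σ, X (σ * swap j₀ m) = X σ) (hY : ∀ σ, Y (σ * swap j₀ m) = Y σ) :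
    ∑ σ : Equiv.Perm (Fin n), ((Equiv.Perm.sign σ : ℤ)) •
      f (X σ * (δ (b (σ m)) * T (b (σ j₀)) - T (b (σ j₀)) * δ (b (σ m))) * Y σ) = 0 := by
  apply Finset.sum_involution (fun σ _ => σ * swap j₀ m)
  · intro σ _
    rw [hX, hY, Perm.sign_mul, Perm.sign_swap (Ne.symm hm)]
    simp only [Perm.mul_apply, swap_apply_left, swap_apply_right]
    rw [LC1_bd_symm hδ (b (σ j₀)) (b (σ m))]
    simp
  · intro σ _ _ h
    have h1 : swap j₀ m = 1 := by
      have := congrArg (fun x => σ⁻¹ * x) h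
      simpa using this
    rw [swap_eq_one_iff] at h1
    exact hm h1.symm
  · intro σ _
    exact Finset.mem_univ _
  · intro σ _
    rw [mul_assoc, swap_mul_self, mul_one]

theorem LC1_u_swap {n : ℕ} (δ : Fin n → R → E) (b : Fin n → R) (σ : Equiv.Perm (Fin n))
    (j₀ m : Fin n) (j : ℕ) (h0 : j ≠ j₀) (h1 : j ≠ m) :
    LC1_u δ b (σ * swap j₀ m) j = LC1_u δ b σ j := by
  unfold LC1_u
  split_ifs with h
  · rw [Perm.mul_apply, swap_apply_of_ne_of_ne]
    · intro hc; exact h0 (by rw [← hc])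
    · intro hc; exact h1 (by rw [← hc])
  · rfl

/-- LC1 -/
theorem GG_inner {n : ℕ} (tr : E →+ k) (htr : ∀ x y, tr (x * y) = tr (y * x)) (T : R →+* E)
    (δ : Fin n → R → E) (hδ : ∀ j, IsBD T (δ j)) (j₀ : Fin n) (Z : E)
    (hZ : ∀ b, δ j₀ b = Z * T b - T b * Z) (a : R) (b : Fin n → R) :
    GG tr T δ a b = 0 := by
  rw [LC1_GG]
  -- the two blocks of letters
  let L : Equiv.Perm (Fin n) → E := fun σ => LC1_pr (LC1_u δ b σ) 0 j₀
  let M : Equiv.Perm (Fin n) → E := fun σ => LC1_pr (LC1_u δ b σ) (j₀ + 1) (n - j₀ - 1)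
  let t : Equiv.Perm (Fin n) → E := fun σ => T (b (σ j₀))
  have h1 : ∀ σ : Equiv.Perm (Fin n), tr (T a * LC1_pr (LC1_u δ b σ) 0 n) =
      - (tr (Z * ((M σ * t σ - t σ * M σ) * (T a * L σ))) +
        tr (Z * (M σ * T a * (L σ * t σ - t σ * L σ)))) := by
    intro σ
    have e1 : LC1_pr (LC1_u δ b σ) 0 n = L σ * (Z * t σ - t σ * Z) * M σ := by
      rw [LC1_pr_split _ j₀.2]
      have e2 : LC1_u δ b σ (0 + j₀) = Z * t σ - t σ * Z := by
        rw [zero_add]
        unfold LC1_u
        rw [dif_pos j₀.2]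
        exact hZ _
      rw [e2, zero_add]
    have e3 : T a * t σ = t σ * T a := by
      simp only [t]
      rw [← map_mul, ← map_mul, mul_comm]
    have e4 : T a * (L σ * (Z * t σ - t σ * Z) * M σ) =
        (T a * L σ) * ((Z * t σ - t σ * Z) * M σ) := by noncomm_ring
    rw [e1, e4, htr]
    have e5 : (Z * t σ - t σ * Z) * M σ * (T a * L σ) =
        Z * (t σ * (M σ * T a * L σ)) - t σ * (Z * (M σ * T a * L σ)) := by noncomm_ring
    rw [e5, map_sub, htr (t σ), ← map_sub, ← map_add, ← map_neg]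
    congr 1
    have e6 : (M σ * t σ - t σ * M σ) * (T a * L σ) + M σ * T a * (L σ * t σ - t σ * L σ) =
        M σ * T a * L σ * t σ - t σ * (M σ * T a * L σ) +
          M σ * (t σ * T a - T a * t σ) * L σ := by noncomm_ring
    rw [← mul_add, e6, e3, sub_self]
    noncomm_ring
  rw [Finset.sum_congr rfl (fun σ _ => by rw [h1 σ])]
  simp only [smul_neg, smul_add]
  rw [Finset.sum_neg_distrib, Finset.sum_add_distrib, neg_eq_zero]
  have h2 : ∑ σ : Equiv.Perm (Fin n), ((Equiv.Perm.sign σ : ℤ)) •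
      tr (Z * ((M σ * t σ - t σ * M σ) * (T a * L σ))) = 0 := by
    have e1 : ∀ σ : Equiv.Perm (Fin n), ((Equiv.Perm.sign σ : ℤ)) •
        tr (Z * ((M σ * t σ - t σ * M σ) * (T a * L σ))) =
        ∑ i ∈ Finset.range (n - j₀ - 1), ((Equiv.Perm.sign σ : ℤ)) •
          tr (Z * LC1_pr (LC1_u δ b σ) (j₀ + 1) i *
            (LC1_u δ b σ (j₀ + 1 + i) * t σ - t σ * LC1_u δ b σ (j₀ + 1 + i)) *
            (LC1_pr (LC1_u δ b σ) (j₀ + 1 + i + 1) (n - j₀ - 1 - i - 1) * (T a * L σ))) := by
      intro σ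
      rw [← Finset.smul_sum, ← map_sum]
      simp only [M]
      rw [LC1_comm, Finset.sum_mul, Finset.mul_sum]
      congr 2
      apply Finset.sum_congr rfl
      intro i _
      noncomm_ring
    rw [Finset.sum_congr rfl (fun σ _ => e1 σ), Finset.sum_comm]
    apply Finset.sum_eq_zero
    intro i hi
    rw [Finset.mem_range] at hi
    have hm : (j₀ : ℕ) + 1 + i < n := by omega
    have e2 : ∀ σ : Equiv.Perm (Fin n), LC1_u δ b σ (j₀ + 1 + i) =
        δ ⟨j₀ + 1 + i, hm⟩ (b (σ ⟨j₀ + 1 + i, hm⟩)) := by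
      intro σ
      unfold LC1_u
      rw [dif_pos hm]
    simp only [e2, t]
    apply LC1_pair tr T (δ ⟨j₀ + 1 + i, hm⟩) (hδ _) b j₀ ⟨j₀ + 1 + i, hm⟩
    · intro hc
      have := congrArg Fin.val hc
      simp only at this
      omega
    · intro σ
      congr 1
      apply LC1_pr_congr
      intro j hj1 hj2
      apply LC1_u_swap
      · omega
      · simp only; omega
    · intro σ
      simp only [L]
      congr 1
      · apply LC1_pr_congr
        intro j hj1 hj2
        apply LC1_u_swap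
        · omega
        · simp only; omega
      · congr 1
        apply LC1_pr_congr
        intro j hj1 hj2
        apply LC1_u_swap
        · omega
        · simp only; omega
  have h3 : ∑ σ : Equiv.Perm (Fin n), ((Equiv.Perm.sign σ : ℤ)) •
      tr (Z * (M σ * T a * (L σ * t σ - t σ * L σ))) = 0 := by
    have e1 : ∀ σ : Equiv.Perm (Fin n), ((Equiv.Perm.sign σ : ℤ)) •
        tr (Z * (M σ * T a * (L σ * t σ - t σ * L σ))) =
        ∑ i ∈ Finset.range j₀, ((Equiv.Perm.sign σ : ℤ)) •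
          tr (Z * (M σ * T a) * LC1_pr (LC1_u δ b σ) 0 i *
            (LC1_u δ b σ (0 + i) * t σ - t σ * LC1_u δ b σ (0 + i)) *
            (LC1_pr (LC1_u δ b σ) (0 + i + 1) (j₀ - i - 1))) := by
      intro σ
      rw [← Finset.smul_sum, ← map_sum]
      simp only [L]
      rw [LC1_comm, Finset.mul_sum, Finset.mul_sum]
      congr 2
      apply Finset.sum_congr rfl
      intro i _
      noncomm_ring
    rw [Finset.sum_congr rfl (fun σ _ => e1 σ), Finset.sum_comm]
    apply Finset.sum_eq_zero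
    intro i hi
    rw [Finset.mem_range] at hi
    have hm : i < n := by omega
    have e2 : ∀ σ : Equiv.Perm (Fin n), LC1_u δ b σ (0 + i) =
        δ ⟨i, hm⟩ (b (σ ⟨i, hm⟩)) := by
      intro σ
      rw [zero_add]
      unfold LC1_u
      rw [dif_pos hm]
    simp only [e2, t]
    apply LC1_pair tr T (δ ⟨i, hm⟩) (hδ _) b j₀ ⟨i, hm⟩
    · intro hc
      have := congrArg Fin.val hc
      simp only at this
      omega
    · intro σ
      simp only [M]
      congr 1
      · congr 2
        apply LC1_pr_congr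
        intro j hj1 hj2
        apply LC1_u_swap
        · omega
        · simp only; omega
      · apply LC1_pr_congr
        intro j hj1 hj2
        apply LC1_u_swap
        · omega
        · simp only; omega
    · intro σ
      apply LC1_pr_congr
      intro j hj1 hj2
      apply LC1_u_swap
      · omega
      · simp only; omega
  rw [h2, h3, add_zero]

end LC

end TI
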